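import Pool.Agent.Lib.helper24.Funtf

set_option autoImplicit false

namespace Pool.Agent.Results.MP_580194_an.EllOne

open Pool.Agent.Lib.helper24.Funtf

/-- Real `ℓ₁ⁿ` has a finite unit norm tight frame of every length `N ≥ n`. -/
theorem result (n : ℕ) (hn : 1 ≤ n) (N : ℕ) (hN : n ≤ N) :
    ∃ (x : Fin N → PiLp 1 (fun _ : Fin n => ℝ))
      (f : Fin N → (PiLp 1 (fun _ : Fin n => ℝ) →L[ℝ] ℝ)),
      (∀ i, ‖x i‖ = 1 ∧ ‖f i‖ = 1 ∧ f i (x i) = 1) ∧
      ∀ y : PiLp 1 (fun _ : Fin n => ℝ), ∑ i, f i y • x i = ((N : ℝ) / (n : ℝ)) • y := by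
  obtain ⟨x, φ, h1, h2⟩ := exists_funtf (PiLp.basisFun 1 ℝ (Fin n)) hn hN
  refine ⟨x, φ, fun i => ?_, fun y => ?_⟩
  · obtain ⟨a1, a2, a3⟩ := h1 i
    have a4 := (φ i).le_opNorm (x i)
    rw [a3, norm_one] at a4
    have a5 := norm_nonneg (x i)
    have a6 := norm_nonneg (φ i)
    exact ⟨le_antisymm a1 (by nlinarith), le_antisymm a2 (by nlinarith), a3⟩
  · have hn' : (n : ℝ) ≠ 0 := by exact_mod_cast (by omega : n ≠ 0)
    have hN' : (N : ℝ) ≠ 0 := by exact_mod_cast (by omega : N ≠ 0)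
    have := h2 y
    simp only [mul_smul, ← Finset.smul_sum, RCLike.ofReal_real_eq_id, id] at this
    conv_rhs => rw [← this, smul_smul]
    rw [show (N : ℝ) / n * (n / N) = 1 by field_simp, one_smul]

end Pool.Agent.Results.MP_580194_an.EllOne
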